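import Pool.Agent.Helper40.AbMot.FrobDef

/-!
# Existence of Frobenius elements in the infinite Galois group
-/

set_option autoImplicit false

open NumberField

namespace AbMot

section

variable {K Ω : Type} [Field K] [NumberField K] [Field Ω] [Algebra K Ω] [IsGalois K Ω]

theorem wc_isInvariant : Algebra.IsInvariant (𝓞 K) (𝓞 Ω) (Ω ≃ₐ[K] Ω) := by
  refine ⟨fun b hb => ?_⟩
  have h1 : ∀ g : Ω ≃ₐ[K] Ω, g (b : Ω) = (b : Ω) := fun g => by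
    have h2 := congrArg (fun z : 𝓞 Ω => (z : Ω)) (hb g)
    exact h2
  obtain ⟨k, hk⟩ := (InfiniteGalois.mem_range_algebraMap_iff_fixed (k := K) (b : Ω)).2 h1
  have hint : IsIntegral ℤ (b : Ω) := b.2
  rw [← hk] at hint
  have hk' : IsIntegral ℤ k := (isIntegral_algebraMap_iff (algebraMap K Ω).injective).1 hint
  refine ⟨⟨k, hk'⟩, ?_⟩
  apply RingOfIntegers.ext
  exact hk

theorem wc_comm : SMulCommClass (Ω ≃ₐ[K] Ω) (𝓞 K) (𝓞 Ω) := by
  refine ⟨fun g a b => ?_⟩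
  apply RingOfIntegers.ext
  have h1 : ((g • a • b : 𝓞 Ω) : Ω) = g (algebraMap K Ω (a : K) * (b : Ω)) := rfl
  have h2 : ((a • g • b : 𝓞 Ω) : Ω) = algebraMap K Ω (a : K) * g (b : Ω) := rfl
  rw [h1, h2, map_mul, AlgEquiv.commutes]

attribute [local instance] Ideal.Quotient.field in
theorem wc_exists_smul (P : Ideal (𝓞 K)) [P.IsMaximal] (Q : Ideal (𝓞 Ω)) [Q.IsMaximal]
    [Q.LiesOver P] [Finite (𝓞 K ⧸ P)] :
    ∃ σ : Ω ≃ₐ[K] Ω, ∀ x : 𝓞 Ω, σ • x - x ^ Nat.card (𝓞 K ⧸ P) ∈ Q := by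
  classical
  have := wc_isInvariant (K := K) (Ω := Ω)
  have := wc_comm (K := K) (Ω := Ω)
  let : TopologicalSpace (𝓞 Ω) := ⊥
  have : DiscreteTopology (𝓞 Ω) := ⟨rfl⟩
  have : ContinuousSMul (Ω ≃ₐ[K] Ω) (𝓞 Ω) := by
    rw [continuousSMul_iff_stabilizer_isOpen]
    intro x
    have h := stabilizer_isOpen_of_isIntegral (K := K) (L := Ω) (x : Ω)
    have e : (MulAction.stabilizer (Ω ≃ₐ[K] Ω) x : Set (Ω ≃ₐ[K] Ω))
        = (MulAction.stabilizer (Ω ≃ₐ[K] Ω) (x : Ω) : Set (Ω ≃ₐ[K] Ω)) := by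
      ext g
      constructor
      · intro hg
        exact congrArg (fun z : 𝓞 Ω => (z : Ω)) hg
      · intro hg
        exact RingOfIntegers.ext hg
    rw [e]
    exact h
  let := Fintype.ofFinite (𝓞 K ⧸ P)
  obtain ⟨σ, hσ⟩ := Ideal.Quotient.stabilizerHom_surjective_of_profinite (G := (Ω ≃ₐ[K] Ω)) P Q
    (FiniteField.frobeniusAlgEquivOfAlgebraic (𝓞 K ⧸ P) (𝓞 Ω ⧸ Q))
  refine ⟨σ.1, fun x => ?_⟩
  rw [← Ideal.Quotient.eq, Nat.card_eq_fintype_card]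
  have := DFunLike.congr_fun hσ (Ideal.Quotient.mk Q x)
  exact this

theorem wc_exists_frob (P : Ideal (𝓞 K)) (hP : P.IsPrime) (hP0 : P ≠ ⊥) :
    ∃ σ : Ω ≃ₐ[K] Ω, IsFrobK P σ := by
  classical
  have : P.IsMaximal := hP.isMaximal hP0
  have : Finite (𝓞 K ⧸ P) := (Ideal.absNorm_ne_zero_iff P).1 (mt Ideal.absNorm_eq_zero_iff.1 hP0)
  obtain ⟨Q, hQ, hQP⟩ := Ideal.exists_ideal_over_prime_of_isIntegral_of_isDomain (S := 𝓞 Ω) P
    (by rw [RingOfIntegers.ker_algebraMap_eq_bot]; exact bot_le)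
  have : Q.LiesOver P := ⟨hQP.symm⟩
  have : Q.IsMaximal := Ideal.IsMaximal.of_liesOver_isMaximal Q P
  obtain ⟨σ, hσ⟩ := wc_exists_smul (K := K) (Ω := Ω) P Q
  refine ⟨σ, Q, hQ, ?_, ?_⟩
  · intro x y hxy
    have : algebraMap (𝓞 K) (𝓞 Ω) x = y := RingOfIntegers.ext hxy.symm
    rw [← this]
    exact Ideal.mem_of_liesOver Q P x
  · intro x y hxy
    have key : ∀ x' y' : 𝓞 Ω, (y' : Ω) = σ (x' : Ω) → y' - x' ^ Nat.card (𝓞 K ⧸ P) ∈ Q := by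
      intro x' y' h
      have h1 : y' = σ • x' := RingOfIntegers.ext h
      rw [h1]
      exact hσ x'
    exact key x y hxy

end

end AbMot
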