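import Pool.Agent.Helper81.AbMot.Spl
import Pool.Agent.Helper76.AbMot.Split

/-!
# A weak form of Chebotarev's density theorem
-/

set_option autoImplicit false

open NumberField

namespace AbMot

/-- An open normal subgroup containing all Frobenius elements outside finitely many rational
primes is the whole Galois group. -/
theorem weak_chebotarev {K Ω : Type} [Field K] [NumberField K] [Field Ω] [Algebra K Ω]
    [IsGalois K Ω] (S : Finset ℕ) (hS : ∀ p ∈ S, p ≠ 0) (Y : Subgroup (Ω ≃ₐ[K] Ω)) [Y.Normal]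
    (hY : IsOpen (Y : Set (Ω ≃ₐ[K] Ω)))
    (h : ∀ P : Ideal (𝓞 K), P.IsPrime → P ≠ ⊥ → (∀ p ∈ S, (p : 𝓞 K) ∉ P) →
      ∀ σ : Ω ≃ₐ[K] Ω, IsFrobK P σ → σ ∈ Y) : Y = ⊤ := by
  classical
  by_contra hne
  let H : ClosedSubgroup (Ω ≃ₐ[K] Ω) := ⟨Y, Y.isClosed_of_isOpen hY⟩
  have hfix : (IntermediateField.fixedField Y).fixingSubgroup = Y :=
    InfiniteGalois.fixingSubgroup_fixedField H
  set L := IntermediateField.fixedField Y with hL
  obtain ⟨hfd, hgal⟩ := (InfiniteGalois.isOpen_and_normal_iff_finite_and_isGalois L).1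
    ⟨by rw [hfix]; exact hY, by rw [hfix]; infer_instance⟩
  have hNF : NumberField L := NumberField.of_module_finite K L
  have hrank : 2 ≤ Module.finrank K L := by
    have h0 : 0 < Module.finrank K L := Module.finrank_pos
    have h1 : Module.finrank K L ≠ 1 := by
      intro h1
      apply hne
      rw [← hfix, IntermediateField.finrank_eq_one_iff.1 h1, IntermediateField.fixingSubgroup_bot]
    omega
  obtain ⟨d, hd0, hd⟩ := wc_partner (K := K) (L := L) hrank
  refine no_two_primes (K := K) (L := L) (insert d S) ?_ ?_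
  · intro p hp
    rcases Finset.mem_insert.1 hp with rfl | hp
    · exact hd0
    · exact hS p hp
  · intro P hP hP0 hPS
    have hPS' : ∀ p ∈ S, (p : 𝓞 K) ∉ P := fun p hp => hPS p (Finset.mem_insert_of_mem hp)
    obtain ⟨σ, hσ⟩ := wc_exists_frob (K := K) (Ω := Ω) P hP hP0
    have hσY := h P hP hP0 hPS' σ hσ
    rw [← hfix] at hσY
    obtain ⟨Q, hQ, hQP, hN⟩ := wc_degree_one L P hP hP0 σ hσ
      (fun x hx => (IntermediateField.mem_fixingSubgroup_iff L σ).1 hσY x hx)
    obtain ⟨Q', hQ', hQQ', hQ'P, hN'⟩ := hd P Q hP hP0 (hPS d (Finset.mem_insert_self _ _)) hQ hQP hN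
    exact ⟨Q, Q', hQ, hQ', hQQ', hQP, hQ'P, hN, hN'⟩

end AbMot
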