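import Pool.Agent.Helper81.AbMot.FE

/-!
# Primes with residue degree one in Galois extensions of number fields
-/

set_option autoImplicit false

open NumberField

namespace AbMot

theorem wc_card_le {F : Type} [CommRing F] [IsDomain F] [Finite F] (q : ℕ) (hq : 1 < q)
    (h : ∀ x : F, x ^ q = x) : Nat.card F ≤ q := by
  classical
  have := Fintype.ofFinite F
  rw [Nat.card_eq_fintype_card]
  let p : Polynomial F := Polynomial.X ^ q - Polynomial.X
  have hdeg : p.natDegree ≤ q := by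
    refine (Polynomial.natDegree_sub_le _ _).trans ?_
    rw [Polynomial.natDegree_X_pow, Polynomial.natDegree_X]
    exact max_le le_rfl hq.le
  have hp0 : p ≠ 0 := by
    intro h0
    have h1 : p.coeff q = 0 := by rw [h0, Polynomial.coeff_zero]
    simp only [p, Polynomial.coeff_sub, Polynomial.coeff_X_pow, if_true] at h1
    rw [Polynomial.coeff_X, if_neg (by omega), sub_zero] at h1
    exact one_ne_zero h1
  have hroots : (Finset.univ : Finset F) ⊆ p.roots.toFinset := by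
    intro x _
    rw [Multiset.mem_toFinset, Polynomial.mem_roots hp0, Polynomial.IsRoot.def]
    simp only [p, Polynomial.eval_sub, Polynomial.eval_pow, Polynomial.eval_X]
    rw [h, sub_self]
  calc Fintype.card F = (Finset.univ : Finset F).card := rfl
    _ ≤ p.roots.toFinset.card := Finset.card_le_card hroots
    _ ≤ Multiset.card p.roots := Multiset.toFinset_card_le _
    _ ≤ p.natDegree := Polynomial.card_roots' p
    _ ≤ _ := hdeg

section

variable {K L : Type} [Field K] [NumberField K] [Field L] [NumberField L] [Algebra K L]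
  [IsGalois K L]

/-- Away from a nonzero integer, a prime of residue degree one has a partner. -/
theorem wc_partner (hL : 2 ≤ Module.finrank K L) : ∃ d : ℕ, d ≠ 0 ∧
    ∀ (P : Ideal (𝓞 K)) (Q : Ideal (𝓞 L)), P.IsPrime → P ≠ ⊥ → ((d : ℕ) : 𝓞 K) ∉ P →
      Q.IsPrime → Q.comap (algebraMap (𝓞 K) (𝓞 L)) = P → Ideal.absNorm Q = Ideal.absNorm P →
      ∃ Q' : Ideal (𝓞 L), Q'.IsPrime ∧ Q ≠ Q' ∧ Q'.comap (algebraMap (𝓞 K) (𝓞 L)) = P ∧
        Ideal.absNorm Q' = Ideal.absNorm P := by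
  classical
  have hG : IsGaloisGroup (L ≃ₐ[K] L) (𝓞 K) (𝓞 L) :=
    IsGaloisGroup.of_isFractionRing (L ≃ₐ[K] L) (𝓞 K) (𝓞 L) K L
  have hD0 : differentIdeal (𝓞 K) (𝓞 L) ≠ ⊥ := differentIdeal_ne_bot
  refine ⟨Ideal.absNorm (differentIdeal (𝓞 K) (𝓞 L)), mt Ideal.absNorm_eq_zero_iff.1 hD0, ?_⟩
  intro P Q hP hP0 hd hQ hQP hN
  have : P.IsMaximal := hP.isMaximal hP0
  have hlies : Q.LiesOver P := ⟨hQP.symm⟩
  have : Q.IsMaximal := Ideal.IsMaximal.of_liesOver_isMaximal Q P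
  have hndvd : ¬ Q ∣ differentIdeal (𝓞 K) (𝓞 L) := by
    intro h
    apply hd
    have h1 : differentIdeal (𝓞 K) (𝓞 L) ≤ Q := Ideal.le_of_dvd h
    have h2 := h1 (Ideal.absNorm_mem (differentIdeal (𝓞 K) (𝓞 L)))
    rw [← hQP, Ideal.mem_comap, map_natCast]
    exact h2
  have hunr := not_dvd_differentIdeal_iff.1 hndvd
  have he : P.ramificationIdxIn (𝓞 L) = 1 := by
    rw [Ideal.ramificationIdxIn_eq_ramificationIdx P Q (L ≃ₐ[K] L)]
    exact Ideal.ramificationIdx_eq_one_of_isUnramifiedAt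
  have hNP : 1 < Ideal.absNorm P := by
    have h0 : Ideal.absNorm P ≠ 0 := mt Ideal.absNorm_eq_zero_iff.1 hP0
    have h1 : Ideal.absNorm P ≠ 1 := mt Ideal.absNorm_eq_one_iff.1 hP.ne_top
    omega
  have hf' : ∀ Q' : Ideal (𝓞 L), Q'.IsPrime → Q'.LiesOver P →
      Ideal.absNorm Q' = Ideal.absNorm P ^ (P.inertiaDegIn (𝓞 L)) := by
    intro Q' hQ' hl'
    have : Q'.IsMaximal := Ideal.IsMaximal.of_liesOver_isMaximal Q' P
    rw [Ideal.inertiaDegIn_eq_inertiaDeg P Q' (L ≃ₐ[K] L),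
      Ideal.absNorm_eq_pow_inertiaDeg'_of_liesOver Q' P hP hP0, Ideal.inertiaDeg'_eq_inertiaDeg]
  have hf : P.inertiaDegIn (𝓞 L) = 1 := by
    have h1 := hf' Q hQ hlies
    rw [hN] at h1
    have h2 : Ideal.absNorm P ^ 1 = Ideal.absNorm P ^ (P.inertiaDegIn (𝓞 L)) := by
      rw [pow_one]
      exact h1
    exact (Nat.pow_right_injective hNP h2).symm
  have hcard := Ideal.ncard_primesOver_mul_ramificationIdxIn_mul_inertiaDegIn P (𝓞 L) (L ≃ₐ[K] L)
  rw [he, hf, mul_one, mul_one, IsGalois.card_aut_eq_finrank] at hcard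
  have h2 : 1 < (P.primesOver (𝓞 L)).ncard := by omega
  obtain ⟨Q', hQ'mem, hQ'ne⟩ := Set.exists_ne_of_one_lt_ncard h2 Q
  have h3 := hf' Q' hQ'mem.1 hQ'mem.2
  rw [hf, pow_one] at h3
  exact ⟨Q', hQ'mem.1, fun h => hQ'ne h.symm, hQ'mem.2.over.symm, h3⟩

end

section

variable {K Ω : Type} [Field K] [NumberField K] [Field Ω] [Algebra K Ω] [IsGalois K Ω]

/-- A prime whose Frobenius element is trivial on `L` has a prime of degree one above it. -/
theorem wc_degree_one (L : IntermediateField K Ω) [NumberField L] (P : Ideal (𝓞 K))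
    (hP : P.IsPrime) (hP0 : P ≠ ⊥) (σ : Ω ≃ₐ[K] Ω) (hσ : IsFrobK P σ) (hL : ∀ x ∈ L, σ x = x) :
    ∃ Q : Ideal (𝓞 L), Q.IsPrime ∧ Q.comap (algebraMap (𝓞 K) (𝓞 L)) = P ∧
      Ideal.absNorm Q = Ideal.absNorm P := by
  classical
  obtain ⟨𝔓, h𝔓, h1, h2⟩ := hσ
  have : P.IsMaximal := hP.isMaximal hP0
  let f : 𝓞 L →+* integralClosure ℤ Ω :=
    { toFun := fun x => ⟨((x : L) : Ω), by
        have := x.2
        exact (isIntegral_algebraMap_iff (algebraMap L Ω).injective).2 this⟩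
      map_one' := rfl
      map_mul' := fun _ _ => rfl
      map_zero' := rfl
      map_add' := fun _ _ => rfl }
  have hfv : ∀ x : 𝓞 L, (f x : Ω) = ((x : L) : Ω) := fun _ => rfl
  have hQprime : (𝔓.comap f).IsPrime := Ideal.comap_isPrime f 𝔓
  have hQP : (𝔓.comap f).comap (algebraMap (𝓞 K) (𝓞 L)) = P := by
    ext x
    rw [Ideal.mem_comap, Ideal.mem_comap]
    exact (h1 x (f (algebraMap (𝓞 K) (𝓞 L) x)) rfl).symm
  have hlies : (𝔓.comap f).LiesOver P := ⟨hQP.symm⟩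
  have hmax : (𝔓.comap f).IsMaximal := Ideal.IsMaximal.of_liesOver_isMaximal _ P
  refine ⟨𝔓.comap f, hQprime, hQP, ?_⟩
  set Q := 𝔓.comap f with hQ
  have hQ0 : Q ≠ ⊥ := by
    intro h
    rw [h] at hQP
    apply hP0
    rw [← hQP]
    exact Ideal.comap_bot_of_injective _ (FaithfulSMul.algebraMap_injective _ _)
  have hfin : Finite (𝓞 L ⧸ Q) := (Ideal.absNorm_ne_zero_iff Q).1 (mt Ideal.absNorm_eq_zero_iff.1 hQ0)
  have hNP : 1 < Ideal.absNorm P := by
    have h0 : Ideal.absNorm P ≠ 0 := mt Ideal.absNorm_eq_zero_iff.1 hP0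
    have h1 : Ideal.absNorm P ≠ 1 := mt Ideal.absNorm_eq_one_iff.1 hP.ne_top
    omega
  have hpow : ∀ x : 𝓞 L ⧸ Q, x ^ Ideal.absNorm P = x := by
    intro x
    obtain ⟨x, rfl⟩ := Ideal.Quotient.mk_surjective x
    rw [← map_pow]
    symm
    rw [Ideal.Quotient.eq, hQ, Ideal.mem_comap, map_sub, map_pow]
    refine h2 (f x) (f x) ?_
    rw [hfv]
    exact (hL _ (x : L).2).symm
  have hle : Nat.card (𝓞 L ⧸ Q) ≤ Ideal.absNorm P := wc_card_le _ hNP hpow
  have hge : Nat.card (𝓞 K ⧸ P) ≤ Nat.card (𝓞 L ⧸ Q) := by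
    refine Nat.card_le_card_of_injective (Ideal.quotientMap Q (algebraMap (𝓞 K) (𝓞 L)) hQP.ge) ?_
    exact Ideal.quotientMap_injective' hQP.le
  have e1 : Ideal.absNorm Q = Nat.card (𝓞 L ⧸ Q) := rfl
  have e2 : Ideal.absNorm P = Nat.card (𝓞 K ⧸ P) := rfl
  omega

end

end AbMot
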