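import Pool.Agent.Helper81.AbMot.FE
import Pool.Agent.Helper40.AbMot.InertDef

/-!
# Inertia elements of the infinite Galois group and unramified primes
-/

set_option autoImplicit false

open NumberField
open scoped Pointwise

namespace AbMot

section

variable {F K Ω : Type} [Field F] [Field K] [NumberField K] [Field Ω] [Algebra F K]
  [Algebra K Ω] [Algebra F Ω] [IsScalarTower F K Ω] [IsGalois F K] [IsGalois K Ω] [IsGalois F Ω]

attribute [local instance] Ideal.Quotient.field in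
theorem in_lift (Q : Ideal (𝓞 K)) [Q.IsMaximal] (σ : K ≃ₐ[F] K)
    (hσ : ∀ x : 𝓞 K, σ • x - x ∈ Q) :
    ∃ (τ : Ω ≃ₐ[F] Ω) (P : Ideal (𝓞 Ω)), P.IsPrime ∧ P.comap (algebraMap (𝓞 K) (𝓞 Ω)) = Q ∧
      (∀ x : K, τ (algebraMap K Ω x) = algebraMap K Ω (σ x)) ∧ ∀ y : 𝓞 Ω, τ • y - y ∈ P := by
  classical
  have := wc_isInvariant (K := K) (Ω := Ω)
  have := wc_comm (K := K) (Ω := Ω)
  let : TopologicalSpace (𝓞 Ω) := ⊥
  have : DiscreteTopology (𝓞 Ω) := ⟨rfl⟩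
  have : ContinuousSMul (Ω ≃ₐ[K] Ω) (𝓞 Ω) := by
    rw [continuousSMul_iff_stabilizer_isOpen]
    intro x
    have h := stabilizer_isOpen_of_isIntegral (K := K) (L := Ω) (x : Ω)
    have e : (MulAction.stabilizer (Ω ≃ₐ[K] Ω) x : Set (Ω ≃ₐ[K] Ω))
        = (MulAction.stabilizer (Ω ≃ₐ[K] Ω) (x : Ω) : Set (Ω ≃ₐ[K] Ω)) := by
      ext g
      constructor
      · intro hg
        exact congrArg (fun z : 𝓞 Ω => (z : Ω)) hg
      · intro hg
        exact RingOfIntegers.ext hg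
    rw [e]
    exact h
  obtain ⟨P, hP, hPQ⟩ := Ideal.exists_ideal_over_prime_of_isIntegral_of_isDomain (S := 𝓞 Ω) Q
    (by rw [RingOfIntegers.ker_algebraMap_eq_bot]; exact bot_le)
  -- a lift of σ
  obtain ⟨τ0, hτ0⟩ := AlgEquiv.restrictNormalHom_surjective (F := F) (K₁ := K) Ω σ
  have hτ0' : ∀ x : K, τ0 (algebraMap K Ω x) = algebraMap K Ω (σ x) := by
    intro x
    rw [← hτ0]
    exact (AlgEquiv.restrictNormal_commutes τ0 K x).symm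
  have hstep : ∀ (τ : Ω ≃ₐ[F] Ω), (∀ x : K, τ (algebraMap K Ω x) = algebraMap K Ω (σ x)) →
      ∀ x : 𝓞 K, τ • (algebraMap (𝓞 K) (𝓞 Ω) x) = algebraMap (𝓞 K) (𝓞 Ω) (σ • x) := by
    intro τ hτ x
    apply RingOfIntegers.ext
    exact hτ (x : K)
  let P' : Ideal (𝓞 Ω) := P.comap (MulSemiringAction.toRingHom (Ω ≃ₐ[F] Ω) (𝓞 Ω) τ0)
  have hP'mem : ∀ y : 𝓞 Ω, y ∈ P' ↔ τ0 • y ∈ P := fun y => Iff.rfl
  have hP' : P'.IsPrime := Ideal.comap_isPrime _ _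
  have hunder : P'.under (𝓞 K) = P.under (𝓞 K) := by
    ext x
    have a1 : x ∈ P'.under (𝓞 K) ↔ τ0 • (algebraMap (𝓞 K) (𝓞 Ω) x) ∈ P := Iff.rfl
    have a2 : x ∈ P.under (𝓞 K) ↔ algebraMap (𝓞 K) (𝓞 Ω) x ∈ P := Iff.rfl
    rw [a1, a2, hstep τ0 hτ0']
    have h1 : (algebraMap (𝓞 K) (𝓞 Ω) (σ • x) ∈ P ↔ σ • x ∈ Q) := by
      rw [← hPQ, Ideal.mem_comap]
    have h2 : (algebraMap (𝓞 K) (𝓞 Ω) x ∈ P ↔ x ∈ Q) := by
      rw [← hPQ, Ideal.mem_comap]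
    rw [h1, h2]
    constructor
    · intro h
      have := Q.sub_mem h (hσ x)
      simpa using this
    · intro h
      have := Q.add_mem (hσ x) h
      simpa using this
  obtain ⟨ρ, hρ⟩ := Algebra.IsInvariant.exists_smul_of_under_eq_of_profinite
    (A := 𝓞 K) (B := 𝓞 Ω) (G := (Ω ≃ₐ[K] Ω)) P' P hunder
  let τ1 : Ω ≃ₐ[F] Ω := τ0 * (ρ⁻¹).restrictScalars F
  have hτ1 : ∀ x : K, τ1 (algebraMap K Ω x) = algebraMap K Ω (σ x) := by
    intro x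
    have h1 : (ρ⁻¹ : Ω ≃ₐ[K] Ω) (algebraMap K Ω x) = algebraMap K Ω x := AlgEquiv.commutes _ _
    have h2 : τ1 (algebraMap K Ω x) = τ0 ((ρ⁻¹ : Ω ≃ₐ[K] Ω) (algebraMap K Ω x)) := rfl
    rw [h2, h1, hτ0']
  have hτ1P : ∀ y : 𝓞 Ω, y ∈ P ↔ τ1 • y ∈ P := by
    intro y
    have h1 : y ∈ P ↔ ρ⁻¹ • y ∈ P' := by
      conv_lhs => rw [hρ]
      exact Ideal.mem_pointwise_smul_iff_inv_smul_mem
    rw [h1, hP'mem]
    have h2 : τ0 • ρ⁻¹ • y = τ1 • y := RingOfIntegers.ext rfl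
    rw [h2]
  have hlies : P.LiesOver Q := ⟨hPQ.symm⟩
  -- the automorphism of the residue field
  let e1 : 𝓞 Ω ≃+* 𝓞 Ω := MulSemiringAction.toRingEquiv (Ω ≃ₐ[F] Ω) (𝓞 Ω) τ1
  have he1 : P = P.map (e1 : 𝓞 Ω →+* 𝓞 Ω) := by
    apply le_antisymm
    · intro y hy
      have h1 : τ1 • e1.symm y = y := e1.apply_symm_apply y
      have h2 : e1.symm y ∈ P := by
        rw [hτ1P, h1]
        exact hy
      have h3 := Ideal.mem_map_of_mem (e1 : 𝓞 Ω →+* 𝓞 Ω) h2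
      have h4 : (e1 : 𝓞 Ω →+* 𝓞 Ω) (e1.symm y) = y := e1.apply_symm_apply y
      rw [h4] at h3
      exact h3
    · rw [Ideal.map_le_iff_le_comap]
      intro y hy
      exact (hτ1P y).1 hy
  let e2 : (𝓞 Ω ⧸ P) ≃+* (𝓞 Ω ⧸ P) := Ideal.quotientEquiv P P e1 he1
  let e3 : (𝓞 Ω ⧸ P) ≃ₐ[𝓞 K ⧸ Q] (𝓞 Ω ⧸ P) := AlgEquiv.ofRingEquiv (f := e2) (by
    intro r
    obtain ⟨r, rfl⟩ := Ideal.Quotient.mk_surjective r
    have h1 : algebraMap (𝓞 K ⧸ Q) (𝓞 Ω ⧸ P) (Ideal.Quotient.mk Q r)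
        = Ideal.Quotient.mk P (algebraMap (𝓞 K) (𝓞 Ω) r) := rfl
    rw [h1]
    have h2 : e2 (Ideal.Quotient.mk P (algebraMap (𝓞 K) (𝓞 Ω) r))
        = Ideal.Quotient.mk P (τ1 • (algebraMap (𝓞 K) (𝓞 Ω) r)) := rfl
    rw [h2, hstep τ1 hτ1, Ideal.Quotient.eq, ← map_sub]
    have h3 := hσ r
    rw [← hPQ, Ideal.mem_comap] at h3
    exact h3)
  obtain ⟨ρ2, hρ2⟩ := Ideal.Quotient.stabilizerHom_surjective_of_profinite
    (G := (Ω ≃ₐ[K] Ω)) Q P e3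
  have hρ2' : ∀ y : 𝓞 Ω, ρ2.1 • y - τ1 • y ∈ P := by
    intro y
    have h1 := DFunLike.congr_fun hρ2 (Ideal.Quotient.mk P y)
    have h2 : Ideal.Quotient.mk P (ρ2.1 • y) = Ideal.Quotient.mk P (τ1 • y) := h1
    exact Ideal.Quotient.eq.1 h2
  have hstab : ∀ y : 𝓞 Ω, y ∈ P → (ρ2.1)⁻¹ • y ∈ P := by
    intro y hy
    have h1 : ρ2.1 • P = P := ρ2.2
    rw [← h1] at hy
    exact Ideal.mem_pointwise_smul_iff_inv_smul_mem.1 hy
  refine ⟨((ρ2.1)⁻¹).restrictScalars F * τ1, P, hP, hPQ, ?_, ?_⟩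
  · intro x
    have h1 : (((ρ2.1)⁻¹).restrictScalars F * τ1) (algebraMap K Ω x)
        = (ρ2.1)⁻¹ (τ1 (algebraMap K Ω x)) := rfl
    rw [h1, hτ1, AlgEquiv.commutes]
  · intro y
    have h1 : ((((ρ2.1)⁻¹).restrictScalars F * τ1) • y : 𝓞 Ω) = (ρ2.1)⁻¹ • (τ1 • y) :=
      RingOfIntegers.ext rfl
    have h2 : y = (ρ2.1)⁻¹ • (ρ2.1 • y) := (inv_smul_smul _ _).symm
    have h3 : (ρ2.1)⁻¹ • (τ1 • y) - y = (ρ2.1)⁻¹ • (τ1 • y - ρ2.1 • y) := by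
      rw [smul_sub, ← h2]
    rw [h1, h3]
    apply hstab
    have := P.neg_mem (hρ2' y)
    rw [neg_sub] at this
    exact this

/-- A prime with trivial inertia group is unramified. -/
theorem in_unram [NumberField F] (Q : Ideal (𝓞 K)) [Q.IsPrime] (hQ0 : Q ≠ ⊥)
    (h : ∀ σ : K ≃ₐ[F] K, (∀ x : 𝓞 K, σ • x - x ∈ Q) → σ = 1) :
    Algebra.IsUnramifiedAt (𝓞 F) Q := by
  classical
  have hFD : FiniteDimensional F K := inferInstance
  have hG : IsGaloisGroup (K ≃ₐ[F] K) (𝓞 F) (𝓞 K) :=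
    IsGaloisGroup.of_isFractionRing (K ≃ₐ[F] K) (𝓞 F) (𝓞 K) F K
  rw [← Ideal.ramificationIdx_eq_one_iff,
    ← Ideal.ramificationIdxIn_eq_ramificationIdx (Q.under (𝓞 F)) Q (K ≃ₐ[F] K),
    ← Ideal.card_inertia_eq_ramificationIdxIn (G := (K ≃ₐ[F] K)) (Q.under (𝓞 F)) Q]
  rw [Nat.card_eq_one_iff_unique]
  refine ⟨⟨fun x y => ?_⟩, ⟨1⟩⟩
  have h1 : ∀ z : Q.inertia (K ≃ₐ[F] K), z.1 = 1 := fun z => h z.1 (fun x => z.2 x)
  exact Subtype.ext (by rw [h1 x, h1 y])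

end

/-- If all inertia elements at `v` of the absolute Galois group of `F` fix `K` then `K / F` is
unramified at all primes over `v`. -/
theorem unramified_of_inert {F : Type} [Field F] [NumberField F]
    (K : IntermediateField F (AlgebraicClosure F)) [NumberField K] [IsGalois F K]
    (v : Ideal (𝓞 F)) (hv : v.IsPrime) (hv0 : v ≠ ⊥)
    (h : ∀ σ : AlgebraicClosure F ≃ₐ[F] AlgebraicClosure F, IsInert v σ → σ ∈ K.fixingSubgroup)
    (Q : Ideal (𝓞 K)) [Q.IsPrime] (hQ : Q.comap (algebraMap (𝓞 F) (𝓞 K)) = v) :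
    Algebra.IsUnramifiedAt (𝓞 F) Q := by
  classical
  have hQ0 : Q ≠ ⊥ := by
    intro h0
    rw [h0] at hQ
    apply hv0
    rw [← hQ]
    exact Ideal.comap_bot_of_injective _ (FaithfulSMul.algebraMap_injective _ _)
  have hQm : Q.IsMaximal := Ideal.IsPrime.isMaximal inferInstance hQ0
  have hgal : IsGalois F (AlgebraicClosure F) := inferInstance
  have hgal2 : IsGalois K (AlgebraicClosure F) := IsGalois.tower_top_intermediateField K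
  refine in_unram Q hQ0 fun σ hσ => ?_
  obtain ⟨τ, P, hP, hPQ, hτ, hτP⟩ := in_lift (F := F) (K := K) (Ω := AlgebraicClosure F) Q σ hσ
  have hin : IsInert v τ := by
    refine ⟨P, hP, ?_, ?_⟩
    · intro x y hxy
      have h1 : algebraMap (𝓞 K) (𝓞 (AlgebraicClosure F)) (algebraMap (𝓞 F) (𝓞 K) x) = y :=
        RingOfIntegers.ext hxy.symm
      have h2 : x ∈ v ↔ algebraMap (𝓞 K) (𝓞 (AlgebraicClosure F)) (algebraMap (𝓞 F) (𝓞 K) x) ∈ P := by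
        rw [← hQ, Ideal.mem_comap, ← hPQ, Ideal.mem_comap]
      rw [h2, h1]
      exact Iff.rfl
    · have key : ∀ x y : 𝓞 (AlgebraicClosure F),
          (y : AlgebraicClosure F) = τ (x : AlgebraicClosure F) → y - x ∈ P := by
        intro x y hxy
        have h1 : y = τ • x := RingOfIntegers.ext hxy
        rw [h1]
        exact hτP x
      exact fun x y hxy => key x y hxy
  have hfix := (IntermediateField.mem_fixingSubgroup_iff K τ).1 (h τ hin)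
  ext x
  have h1 := hτ x
  have h2 : τ (algebraMap K (AlgebraicClosure F) x) = algebraMap K (AlgebraicClosure F) x :=
    hfix x.1 x.2
  rw [h2] at h1
  have h3 : σ x = x := ((algebraMap K (AlgebraicClosure F)).injective h1).symm
  rw [h3]
  rfl

end AbMot
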