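import Mathlib

/-!
# The different of a Galois extension ramified only above a finite set of primes
-/

set_option autoImplicit false

open NumberField
open scoped Pointwise nonZeroDivisors

namespace AbMot

section

variable {F K : Type} [Field F] [NumberField F] [Field K] [NumberField K] [Algebra F K]

theorem df_mem (x : 𝓞 K) : x ∈ differentIdeal (𝓞 F) (𝓞 K) ↔
    ∀ y : K, (∀ b : 𝓞 K, Algebra.trace F K (y * b) ∈ (algebraMap (𝓞 F) F).range) →
      ∃ c : 𝓞 K, (c : K) = x * y := by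
  have h := coeSubmodule_differentIdeal (A := 𝓞 F) (K := F) (B := 𝓞 K) (L := K)
  have h1 : x ∈ differentIdeal (𝓞 F) (𝓞 K) ↔
      (x : K) ∈ IsLocalization.coeSubmodule K (differentIdeal (𝓞 F) (𝓞 K)) := by
    rw [IsLocalization.mem_coeSubmodule]
    constructor
    · intro hx
      exact ⟨x, hx, rfl⟩
    · rintro ⟨y, hy, hyx⟩
      rwa [← RingOfIntegers.ext hyx]
  rw [h1, h, Submodule.mem_div_iff_forall_mul_mem]
  constructor
  · intro hx y hy
    have := hx y (by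
      rw [Submodule.mem_traceDual]
      intro a ha
      rw [Submodule.mem_one] at ha
      obtain ⟨b, rfl⟩ := ha
      rw [Algebra.traceForm_apply]
      exact hy b)
    rw [Submodule.mem_one] at this
    exact this
  · intro hx y hy
    rw [Submodule.mem_one]
    refine hx y fun b => ?_
    rw [Submodule.mem_traceDual] at hy
    have := hy (b : K) (by rw [Submodule.mem_one]; exact ⟨b, rfl⟩)
    rwa [Algebra.traceForm_apply] at this

theorem df_smul_mem (σ : K ≃ₐ[F] K) (x : 𝓞 K) (hx : x ∈ differentIdeal (𝓞 F) (𝓞 K)) :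
    σ • x ∈ differentIdeal (𝓞 F) (𝓞 K) := by
  rw [df_mem] at hx ⊢
  intro y hy
  obtain ⟨c, hc⟩ := hx (σ.symm y) fun b => by
    have h1 := hy (σ • b)
    have h2 : y * ((σ • b : 𝓞 K) : K) = σ (σ.symm y * (b : K)) := by
      rw [map_mul, AlgEquiv.apply_symm_apply]; rfl
    rw [h2, Algebra.trace_eq_of_algEquiv] at h1
    exact h1
  refine ⟨σ • c, ?_⟩
  have h3 : ((σ • c : 𝓞 K) : K) = σ (c : K) := rfl
  have h4 : ((σ • x : 𝓞 K) : K) = σ (x : K) := rfl
  rw [h3, h4, hc, map_mul, AlgEquiv.apply_symm_apply]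

theorem df_smul_diff (σ : K ≃ₐ[F] K) :
    σ • differentIdeal (𝓞 F) (𝓞 K) = differentIdeal (𝓞 F) (𝓞 K) := by
  apply le_antisymm
  · intro x hx
    rw [Ideal.mem_pointwise_smul_iff_inv_smul_mem] at hx
    have := df_smul_mem σ _ hx
    rwa [smul_inv_smul] at this
  · intro x hx
    rw [Ideal.mem_pointwise_smul_iff_inv_smul_mem]
    exact df_smul_mem σ⁻¹ _ hx

theorem df_smul_map (σ : K ≃ₐ[F] K) (v : Ideal (𝓞 F)) :
    σ • v.map (algebraMap (𝓞 F) (𝓞 K)) = v.map (algebraMap (𝓞 F) (𝓞 K)) := by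
  rw [Ideal.pointwise_smul_def, Ideal.map_map]
  congr 1
  ext x
  have : σ (algebraMap F K (x : F)) = algebraMap F K (x : F) := σ.commutes _
  exact this

theorem df_cast_mem (v : Ideal (𝓞 F)) (q : ℕ) (hv : v ≠ ⊥)
    (h : (v.map (algebraMap (𝓞 F) (𝓞 K))) ^ q ∣ differentIdeal (𝓞 F) (𝓞 K)) :
    ((Module.finrank F K : ℕ) : 𝓞 F) ∈ v ^ q := by
  have hvq : v ^ q ≠ ⊥ := pow_ne_zero q hv
  rw [← Ideal.map_pow] at h
  have hI : (v ^ q).map (algebraMap (𝓞 F) (𝓞 K)) ≠ ⊥ := by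
    rw [Ne, Ideal.map_eq_bot_iff_of_injective (FaithfulSMul.algebraMap_injective (𝓞 F) (𝓞 K))]
    exact hvq
  have h1 := Ideal.le_of_dvd h
  rw [differentialIdeal_le_iff (K := F) (L := K) hI] at h1
  have hv0 : ((v ^ q : Ideal (𝓞 F)) : FractionalIdeal (𝓞 F)⁰ F) ≠ 0 := by
    rwa [Ne, FractionalIdeal.coeIdeal_eq_zero]
  have hI0 : (((v ^ q).map (algebraMap (𝓞 F) (𝓞 K)) : Ideal (𝓞 K)) :
      FractionalIdeal (𝓞 K)⁰ K) ≠ 0 := by
    rwa [Ne, FractionalIdeal.coeIdeal_eq_zero]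
  -- key: for x in the inverse of v ^ q, N x is integral
  have key : ∀ x : F, x ∈ (((v ^ q : Ideal (𝓞 F)) : FractionalIdeal (𝓞 F)⁰ F))⁻¹ →
      (Module.finrank F K : F) * x ∈ (1 : FractionalIdeal (𝓞 F)⁰ F) := by
    intro x hx
    rw [FractionalIdeal.mem_inv_iff hv0] at hx
    have hxK : algebraMap F K x ∈ ((((v ^ q).map (algebraMap (𝓞 F) (𝓞 K)) : Ideal (𝓞 K)) :
        FractionalIdeal (𝓞 K)⁰ K))⁻¹ := by
      rw [FractionalIdeal.mem_inv_iff hI0]
      intro y hy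
      rw [FractionalIdeal.mem_coeIdeal] at hy
      obtain ⟨c, hc, rfl⟩ := hy
      rw [Ideal.map] at hc
      induction hc using Submodule.span_induction with
      | mem z hz =>
        obtain ⟨d, hd, rfl⟩ := hz
        have := hx (algebraMap (𝓞 F) F d) (by
          rw [FractionalIdeal.mem_coeIdeal]; exact ⟨d, hd, rfl⟩)
        rw [FractionalIdeal.mem_one_iff] at this ⊢
        obtain ⟨u, hu⟩ := this
        refine ⟨algebraMap (𝓞 F) (𝓞 K) u, ?_⟩
        have h5 : algebraMap (𝓞 K) K (algebraMap (𝓞 F) (𝓞 K) u)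
            = algebraMap F K (algebraMap (𝓞 F) F u) := rfl
        have h6 : algebraMap (𝓞 K) K (algebraMap (𝓞 F) (𝓞 K) d)
            = algebraMap F K (algebraMap (𝓞 F) F d) := rfl
        rw [h5, hu, map_mul, h6]
      | zero => rw [map_zero, mul_zero]; exact FractionalIdeal.zero_mem _
      | add a b _ _ ha hb =>
        rw [map_add, mul_add]
        exact Submodule.add_mem (1 : FractionalIdeal (𝓞 K)⁰ K).coeToSubmodule ha hb
      | smul r a _ ha =>
        rw [smul_eq_mul, map_mul, mul_left_comm]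
        rw [FractionalIdeal.mem_one_iff] at ha ⊢
        obtain ⟨u, hu⟩ := ha
        exact ⟨r * u, by rw [map_mul, hu]⟩
    have h2 := h1 (Submodule.mem_map_of_mem (f := (Algebra.trace F K).restrictScalars (𝓞 F))
      (r := algebraMap F K x) hxK)
    rw [LinearMap.restrictScalars_apply, Algebra.trace_algebraMap, nsmul_eq_mul,
      Submodule.mem_one] at h2
    rw [FractionalIdeal.mem_one_iff]
    exact h2
  have h3 : ((Module.finrank F K : ℕ) : F) ∈
      ((((v ^ q : Ideal (𝓞 F)) : FractionalIdeal (𝓞 F)⁰ F))⁻¹)⁻¹ := by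
    rw [FractionalIdeal.mem_inv_iff (inv_ne_zero hv0)]
    exact key
  rw [inv_inv, FractionalIdeal.mem_coeIdeal] at h3
  obtain ⟨c, hc, hc2⟩ := h3
  have : c = ((Module.finrank F K : ℕ) : 𝓞 F) := by
    apply RingOfIntegers.ext
    exact hc2
  rwa [this] at hc

theorem df_emult (σ : K ≃ₐ[F] K) (P I : Ideal (𝓞 K)) :
    emultiplicity (σ • P) (σ • I) = emultiplicity P I :=
  emultiplicity_map_eq (MulDistribMulAction.toMulEquiv (Ideal (𝓞 K)) σ)

theorem diff_dvd [IsGalois F K] (S : Finset ℕ) (hS : ∀ p ∈ S, p.Prime)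
    (h : ∀ (Q : Ideal (𝓞 K)) (_ : Q.IsPrime), Q ≠ ⊥ → (∀ p ∈ S, (p : 𝓞 K) ∉ Q) →
      Algebra.IsUnramifiedAt (𝓞 F) Q) :
    differentIdeal (𝓞 F) (𝓞 K) ∣
      Ideal.span {((Module.finrank F K * ∏ p ∈ S, p : ℕ) : 𝓞 K)} := by
  have hD : differentIdeal (𝓞 F) (𝓞 K) ≠ ⊥ := differentIdeal_ne_bot
  rw [UniqueFactorizationMonoid.dvd_iff_emultiplicity_le hD]
  intro Q hQ
  rw [emultiplicity_le_emultiplicity_iff]
  intro n hn
  rcases Nat.eq_zero_or_pos n with rfl | hn0
  · rw [pow_zero]; exact one_dvd _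
  have hQp : Q.IsPrime := Ideal.isPrime_of_prime hQ
  have hQ0 : Q ≠ ⊥ := hQ.ne_zero
  have hQD : Q ∣ differentIdeal (𝓞 F) (𝓞 K) := (dvd_pow_self Q hn0.ne').trans hn
  obtain ⟨p, hp, hpQ⟩ : ∃ p ∈ S, (p : 𝓞 K) ∈ Q := by
    by_contra hcon
    push Not at hcon
    exact (not_dvd_differentIdeal_iff.2 (h Q hQp hQ0 hcon)) hQD
  set v : Ideal (𝓞 F) := Q.under (𝓞 F) with hv
  have hvp : v.IsPrime := Ideal.IsPrime.under (𝓞 F) Q
  have hv0 : v ≠ ⊥ := mt Ideal.eq_bot_of_comap_eq_bot hQ0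
  have hvm : v.IsMaximal := hvp.isMaximal hv0
  set J : Ideal (𝓞 K) := v.map (algebraMap (𝓞 F) (𝓞 K)) with hJ
  have hJ0 : J ≠ ⊥ := by
    rw [hJ, Ne, Ideal.map_eq_bot_iff_of_injective (FaithfulSMul.algebraMap_injective (𝓞 F) (𝓞 K))]
    exact hv0
  have hQJ : Q ∣ J := by
    rw [Ideal.dvd_iff_le, hJ, Ideal.map_le_iff_le_comap]
  have hfin : FiniteMultiplicity Q J := FiniteMultiplicity.of_prime_left hQ hJ0
  set e := multiplicity Q J with he
  have hee : emultiplicity Q J = e := hfin.emultiplicity_eq_multiplicity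
  have hQe : Q ^ e ∣ J := pow_multiplicity_dvd Q J
  have he0 : 0 < e := by
    by_contra hcon
    have : e = 0 := by omega
    have h2 : (1 : ℕ∞) ≤ emultiplicity Q J := by
      have := (pow_dvd_iff_le_emultiplicity (a := Q) (b := J) (k := 1)).1 (by rwa [pow_one])
      exact_mod_cast this
    rw [hee, this] at h2
    exact absurd h2 (by simp)
  -- the power of J dividing D
  have hJD : J ^ (n / e) ∣ differentIdeal (𝓞 F) (𝓞 K) := by
    rw [UniqueFactorizationMonoid.dvd_iff_emultiplicity_le (pow_ne_zero _ hJ0)]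
    intro P hP
    have hPp : P.IsPrime := Ideal.isPrime_of_prime hP
    rw [emultiplicity_pow hP]
    by_cases hPJ : P ∣ J
    · have hPv : v ≤ P.under (𝓞 F) := by
        rw [Ideal.dvd_iff_le, hJ, Ideal.map_le_iff_le_comap] at hPJ
        exact hPJ
      have hPne : P.under (𝓞 F) ≠ ⊤ := (Ideal.IsPrime.under (𝓞 F) P).ne_top
      have hPv' : v = P.under (𝓞 F) := hvm.eq_of_le hPne hPv
      have : P.LiesOver v := ⟨hPv'⟩
      have : Q.LiesOver v := ⟨hv⟩
      have hG : IsGaloisGroup (K ≃ₐ[F] K) (𝓞 F) (𝓞 K) := inferInstance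
      obtain ⟨σ, hσ⟩ := Ideal.exists_smul_eq_of_isGaloisGroup v Q P (K ≃ₐ[F] K)
      have h1 : emultiplicity P J = emultiplicity Q J := by
        have := df_emult σ Q J
        rwa [hσ, hJ, df_smul_map, ← hJ] at this
      have h2 : emultiplicity P (differentIdeal (𝓞 F) (𝓞 K))
          = emultiplicity Q (differentIdeal (𝓞 F) (𝓞 K)) := by
        have := df_emult σ Q (differentIdeal (𝓞 F) (𝓞 K))
        rwa [hσ, df_smul_diff] at this
      rw [h1, h2, hee]
      have h3 : Q ^ (n / e * e) ∣ differentIdeal (𝓞 F) (𝓞 K) :=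
        (pow_dvd_pow Q (Nat.div_mul_le_self n e)).trans hn
      have h4 := (pow_dvd_iff_le_emultiplicity).1 h3
      exact_mod_cast h4
    · rw [emultiplicity_eq_zero.2 hPJ, mul_zero]
      exact zero_le
  have hN := df_cast_mem v (n / e) hv0 hJD
  -- assemble
  have hA : Q ^ (n / e * e) ∣ Ideal.span {((Module.finrank F K : ℕ) : 𝓞 K)} := by
    have h5 : Q ^ (n / e * e) ∣ J ^ (n / e) := by
      rw [mul_comm, pow_mul]
      exact pow_dvd_pow_of_dvd hQe _
    refine h5.trans ?_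
    rw [Ideal.dvd_iff_le, Ideal.span_singleton_le_iff_mem, hJ, ← Ideal.map_pow]
    have := Ideal.mem_map_of_mem (algebraMap (𝓞 F) (𝓞 K)) hN
    rwa [map_natCast] at this
  have hB : Q ^ (n % e) ∣ Ideal.span {((∏ p ∈ S, p : ℕ) : 𝓞 K)} := by
    have h6 : Q ^ (n % e) ∣ J := (pow_dvd_pow Q (Nat.mod_lt n he0).le).trans hQe
    refine h6.trans ?_
    rw [Ideal.dvd_iff_le, Ideal.span_singleton_le_iff_mem]
    have hpv : (p : 𝓞 F) ∈ v := by
      rw [hv, Ideal.under_def, Ideal.mem_comap, map_natCast]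
      exact hpQ
    have hpJ : (p : 𝓞 K) ∈ J := by
      have := Ideal.mem_map_of_mem (algebraMap (𝓞 F) (𝓞 K)) hpv
      rwa [map_natCast] at this
    obtain ⟨r, hr⟩ := Finset.dvd_prod_of_mem (fun p : ℕ => p) hp
    rw [hr, Nat.cast_mul]
    exact Ideal.mul_mem_right _ _ hpJ
  have hC := mul_dvd_mul hA hB
  rw [← pow_add, Ideal.span_singleton_mul_span_singleton, ← Nat.cast_mul,
    Nat.div_add_mod' n e] at hC
  exact hC

end

end AbMot
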